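import Pool.Agent.Helper22_DEN.Stmt

/-!
# Squad DEN, module NRM: the congruence subgroups are normal and compatible
-/

set_option autoImplicit false

open scoped BigOperators

namespace Pool.Agent.DEN.H63

section
variable {r : ℕ} {C : Matrix (Fin r) (Fin r) ℤ} {K : Type} [Field K]

theorem crd_mem (S : Subring (FF K)) {v : LieV C (FF K)} (hv : Cd (S : Set (FF K)) v)
    (x : Fin r → ℤ) : crd v x ∈ S := by
  unfold crd
  split_ifs with h
  · exact hv.2 _
  · exact S.zero_mem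

theorem pr_mem (S : Subring (FF K)) {v : LieV C (FF K)} (hv : Cd (S : Set (FF K)) v)
    (x : Fin r → ℤ) : pr v x ∈ S := by
  unfold pr
  refine S.sum_mem fun i _ => S.sum_mem fun j _ => ?_
  exact S.mul_mem (S.mul_mem (hv.1 i) (intCast_mem S _)) (intCast_mem S _)

theorem rootMap_mem (S : Subring (FF K)) (β : Rt C) {a : FF K} (ha : a ∈ S)
    {v : LieV C (FF K)} (hv : Cd (S : Set (FF K)) v) : Cd (S : Set (FF K)) (rootMap β a v) := by
  constructor
  · intro i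
    rw [rootMap_fst]
    exact S.sub_mem (hv.1 i) (S.mul_mem (S.mul_mem ha (hv.2 _)) (intCast_mem S _))
  · intro γ
    by_cases h1 : γ = β
    · subst h1
      rw [rootMap_snd_self]
      exact S.add_mem (S.sub_mem (hv.2 _) (S.mul_mem ha (pr_mem S hv _)))
        (S.mul_mem (S.pow_mem ha 2) (hv.2 _))
    · by_cases h2 : ip C β.1 γ.1 = 1
      · rw [rootMap_snd_one _ _ _ _ h2]
        exact S.add_mem (hv.2 _) (S.mul_mem (S.mul_mem ha (intCast_mem S _)) (crd_mem S hv _))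
      · rw [rootMap_snd_other _ _ _ _ h1 h2]
        exact hv.2 _

/-- elements of `arith` preserve integrality, in both directions. -/
theorem arith_int (hC : SimplyLaced C) (P : Polynomial K) {g : grp C K} (hg : g ∈ arith C K P) :
    (∀ v : LieV C (FF K), Cd (ringA K P : Set (FF K)) v → Cd (ringA K P : Set (FF K)) (g.1 v)) ∧
    (∀ v : LieV C (FF K), Cd (ringA K P : Set (FF K)) v →
      Cd (ringA K P : Set (FF K)) ((g⁻¹).1 v)) := by
  rw [arith_eq hC] at hg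
  induction hg using Subgroup.closure_induction with
  | mem x hx =>
    obtain ⟨β, a, ha, rfl⟩ := hx
    refine ⟨fun v hv => rootMap_mem _ β ha hv, fun v hv => ?_⟩
    rw [xg_inv]
    exact rootMap_mem _ β (neg_mem ha) hv
  | one =>
    refine ⟨fun v hv => hv, fun v hv => ?_⟩
    rw [inv_one]
    exact hv
  | mul x y hx hy h1 h2 =>
    refine ⟨fun v hv => h1.1 _ (h2.1 v hv), fun v hv => ?_⟩
    rw [mul_inv_rev]
    exact h2.2 _ (h1.2 v hv)
  | inv x hx h1 =>
    refine ⟨h1.2, fun v hv => ?_⟩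
    rw [inv_inv]
    exact h1.1 v hv

theorem ringA_one_le (P : Polynomial K) : ringA K 1 ≤ ringA K P := by
  unfold ringA
  rw [Subring.closure_le]
  rintro x (hx | hx)
  · exact Subring.subset_closure (Or.inl hx)
  · have h : x = 1 := by
      rw [Set.mem_singleton_iff] at hx
      rw [hx, map_one, inv_one]
    rw [h]
    exact Subring.one_mem _

theorem arith_one_le (P : Polynomial K) : arith C K 1 ≤ arith C K P := by
  unfold arith
  apply Subgroup.closure_mono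
  rintro g ⟨β, a, ha, h⟩
  exact ⟨β, a, ringA_one_le P ha, h⟩

theorem Cd_one {P : Polynomial K} {v : LieV C (FF K)} (hv : Cd (ringA K 1 : Set (FF K)) v) :
    Cd (ringA K P : Set (FF K)) v :=
  ⟨fun i => ringA_one_le P (hv.1 i), fun γ => ringA_one_le P (hv.2 γ)⟩

theorem inv_apply (g : grp C K) (v : LieV C (FF K)) : g.1 ((g⁻¹).1 v) = v := by
  have h : (g * g⁻¹).1 v = v := by rw [mul_inv_cancel]; rfl
  exact h

/-- coordinates in `N A` -/
theorem Cd_N {P N : Polynomial K} {v : LieV C (FF K)}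
    (hv : Cd {a | ∃ b ∈ ringA K P, a = polyL K N * b} v) :
    ∃ u : LieV C (FF K), Cd (ringA K P : Set (FF K)) u ∧ v = polyL K N • u := by
  obtain ⟨h1, h2⟩ := hv
  choose b hb hb' using h1
  choose c hc hc' using h2
  refine ⟨(b, c), ⟨hb, hc⟩, ?_⟩
  refine Prod.ext ?_ ?_
  · funext i
    exact hb' i
  · funext γ
    exact hc' γ

theorem Cd_N' {P N : Polynomial K} {u : LieV C (FF K)} (hu : Cd (ringA K P : Set (FF K)) u) :
    Cd {a | ∃ b ∈ ringA K P, a = polyL K N * b} (polyL K N • u) :=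
  ⟨fun i => ⟨u.1 i, hu.1 i, rfl⟩, fun γ => ⟨u.2 γ, hu.2 γ, rfl⟩⟩

theorem conj_triv (hC : SimplyLaced C) {P N : Polynomial K} {g γ : grp C K}
    (hg : g ∈ arith C K P) (hγ : TrivMod C K P N γ) : TrivMod C K P N (g * γ * g⁻¹) := by
  intro v hv
  have hw := (arith_int hC P hg).2 v hv
  obtain ⟨u, hu, hu'⟩ := Cd_N (hγ _ hw)
  have e : (g * γ * g⁻¹).1 v - v = polyL K N • g.1 u := by
    have e1 : (g * γ * g⁻¹).1 v = g.1 (γ.1 ((g⁻¹).1 v)) := rfl
    have e2 : γ.1 ((g⁻¹).1 v) = (g⁻¹).1 v + polyL K N • u := by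
      rw [← hu']; abel
    rw [e1, e2, map_add, inv_apply, map_smul]
    abel
  rw [e]
  exact Cd_N' ((arith_int hC P hg).1 u hu)

theorem conj_cong (hC : SimplyLaced C) {P N : Polynomial K} {g γ : grp C K}
    (hg : g ∈ arith C K P) (hγ : γ ∈ cong C K P N) : g * γ * g⁻¹ ∈ cong C K P N := by
  obtain ⟨h1, h2, h3⟩ := hγ
  refine ⟨mul_mem (mul_mem hg h1) (inv_mem hg), conj_triv hC hg h2, ?_⟩
  have e : (g * γ * g⁻¹)⁻¹ = g * γ⁻¹ * g⁻¹ := by group
  rw [e]
  exact conj_triv hC hg h3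

theorem polyL_mem (P p : Polynomial K) : polyL K p ∈ ringA K P :=
  Subring.subset_closure (Or.inl ⟨p, rfl⟩)

theorem inv_mem_ringA (P : Polynomial K) : (polyL K P)⁻¹ ∈ ringA K P :=
  Subring.subset_closure (Or.inr rfl)

/-- a common denominator -/
theorem common_den [Finite (Rt C)] (P : Polynomial K)
    (h3 : ∀ a : FF K, a ∈ ringA K P ↔
      ∃ (n : ℕ) (p : Polynomial K), polyL K P ^ n * a = polyL K p)
    {v : LieV C (FF K)} (hv : Cd (ringA K P : Set (FF K)) v) :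
    ∃ n : ℕ, Cd (ringA K 1 : Set (FF K)) (polyL K P ^ n • v) := by
  have h1 : ∀ i, ∃ n : ℕ, ∀ m, n ≤ m → polyL K P ^ m * v.1 i ∈ ringA K 1 := by
    intro i
    obtain ⟨n, p, hp⟩ := (h3 _).1 (hv.1 i)
    refine ⟨n, fun m hm => ?_⟩
    obtain ⟨k, rfl⟩ := Nat.exists_eq_add_of_le hm
    rw [add_comm n k, pow_add, mul_assoc, hp, ← map_pow, ← map_mul]
    exact polyL_mem 1 _
  have h2 : ∀ γ, ∃ n : ℕ, ∀ m, n ≤ m → polyL K P ^ m * v.2 γ ∈ ringA K 1 := by
    intro i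
    obtain ⟨n, p, hp⟩ := (h3 _).1 (hv.2 i)
    refine ⟨n, fun m hm => ?_⟩
    obtain ⟨k, rfl⟩ := Nat.exists_eq_add_of_le hm
    rw [add_comm n k, pow_add, mul_assoc, hp, ← map_pow, ← map_mul]
    exact polyL_mem 1 _
  choose a ha using h1
  choose b hb using h2
  cases nonempty_fintype (Rt C)
  refine ⟨Finset.univ.sup a + Finset.univ.sup b, ?_, ?_⟩
  · intro i
    exact ha i _ (le_trans (Finset.le_sup (Finset.mem_univ i)) (Nat.le_add_right _ _))
  · intro γ
    exact hb γ _ (le_trans (Finset.le_sup (Finset.mem_univ γ)) (Nat.le_add_left _ _))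

theorem triv_one_to_P [Finite (Rt C)] {P N : Polynomial K} (hP : polyL K P ≠ 0)
    (h3 : ∀ a : FF K, a ∈ ringA K P ↔
      ∃ (n : ℕ) (p : Polynomial K), polyL K P ^ n * a = polyL K p)
    {γ : grp C K} (hγ : TrivMod C K 1 N γ) : TrivMod C K P N γ := by
  intro v hv
  obtain ⟨n, hn⟩ := common_den P h3 hv
  have h := hγ _ hn
  have e : γ.1 (polyL K P ^ n • v) - polyL K P ^ n • v = polyL K P ^ n • (γ.1 v - v) := by
    rw [map_smul, smul_sub]
  rw [e] at h
  have hPn : polyL K P ^ n ≠ 0 := pow_ne_zero _ hP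
  have key : ∀ x : FF K, (∃ b ∈ ringA K 1, polyL K P ^ n * x = polyL K N * b) →
      ∃ b ∈ ringA K P, x = polyL K N * b := by
    rintro x ⟨b, hb, hb'⟩
    refine ⟨((polyL K P)⁻¹) ^ n * b,
      (ringA K P).mul_mem ((ringA K P).pow_mem (inv_mem_ringA P) n) (ringA_one_le P hb), ?_⟩
    rw [inv_pow]
    field_simp
    rw [mul_comm x, hb']
  exact ⟨fun i => key _ (h.1 i), fun δ => key _ (h.2 δ)⟩

theorem cong_one_le [Finite (Rt C)] {P N : Polynomial K} (hP : polyL K P ≠ 0)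
    (h3 : ∀ a : FF K, a ∈ ringA K P ↔
      ∃ (n : ℕ) (p : Polynomial K), polyL K P ^ n * a = polyL K p) :
    cong C K 1 N ≤ cong C K P N := by
  rintro γ ⟨h1, h2, h4⟩
  exact ⟨arith_one_le P h1, triv_one_to_P hP h3 h2, triv_one_to_P hP h3 h4⟩

theorem triv_P_to_one (hC : SimplyLaced C) {P N : Polynomial K}
    (h3 : ∀ a : FF K, a ∈ ringA K P → polyL K N * a ∈ ringA K 1 → a ∈ ringA K 1)
    {γ : grp C K} (hγ : TrivMod C K P N γ) (hγ' : γ ∈ arith C K 1) : TrivMod C K 1 N γ := by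
  intro v hv
  have h := hγ v (Cd_one hv)
  have h' := (arith_int hC 1 hγ').1 v hv
  constructor
  · intro i
    obtain ⟨b, hb, hb'⟩ := h.1 i
    refine ⟨b, h3 b hb ?_, hb'⟩
    rw [← hb']
    exact (ringA K 1).sub_mem (h'.1 i) (hv.1 i)
  · intro δ
    obtain ⟨b, hb, hb'⟩ := h.2 δ
    refine ⟨b, h3 b hb ?_, hb'⟩
    rw [← hb']
    exact (ringA K 1).sub_mem (h'.2 δ) (hv.2 δ)

theorem xg_triv (hC : SimplyLaced C) {P N : Polynomial K} (β : Rt C) {b : FF K}
    (hb : b ∈ ringA K P) : TrivMod C K P N (xg hC β (polyL K N * b)) := by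
  intro v hv
  have hN : polyL K N ∈ ringA K P := polyL_mem P N
  constructor
  · intro i
    refine ⟨-(b * v.2 β.neg * ((β.1 i : ℤ) : FF K)), ?_, ?_⟩
    · exact neg_mem ((ringA K P).mul_mem ((ringA K P).mul_mem hb (hv.2 _)) (intCast_mem _ _))
    · change (rootMap β (polyL K N * b) v).1 i - v.1 i = _
      rw [rootMap_fst]
      ring
  · intro γ
    change ∃ b' ∈ ringA K P, (rootMap β (polyL K N * b) v).2 γ - v.2 γ = polyL K N * b'
    by_cases h1 : γ = β
    · subst h1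
      refine ⟨-(b * pr v γ.1) + polyL K N * b ^ 2 * v.2 γ.neg, ?_, ?_⟩
      · exact add_mem (neg_mem ((ringA K P).mul_mem hb (pr_mem _ hv _)))
          ((ringA K P).mul_mem ((ringA K P).mul_mem hN ((ringA K P).pow_mem hb 2)) (hv.2 _))
      · rw [rootMap_snd_self]
        ring
    · by_cases h2 : ip C β.1 γ.1 = 1
      · refine ⟨b * ((eps C β.1 (γ.1 - β.1) : ℤ) : FF K) * crd v (γ.1 - β.1), ?_, ?_⟩
        · exact (ringA K P).mul_mem ((ringA K P).mul_mem hb (intCast_mem _ _)) (crd_mem _ hv _)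
        · rw [rootMap_snd_one _ _ _ _ h2]
          ring
      · refine ⟨0, zero_mem _, ?_⟩
        rw [rootMap_snd_other _ _ _ _ h1 h2]
        ring

theorem xg_cong (hC : SimplyLaced C) {P N : Polynomial K} (β : Rt C) {b : FF K}
    (hb : b ∈ ringA K P) : xg hC β (polyL K N * b) ∈ cong C K P N := by
  refine ⟨xg_mem_arith hC P β ((ringA K P).mul_mem (polyL_mem P N) hb), xg_triv hC β hb, ?_⟩
  rw [xg_inv, ← mul_neg]
  exact xg_triv hC β (neg_mem hb)

theorem decomp (hC : SimplyLaced C) {P N : Polynomial K}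
    (h3 : ∀ a : FF K, a ∈ ringA K P →
      ∃ a0 ∈ ringA K 1, ∃ b ∈ ringA K P, a = a0 + polyL K N * b)
    {g : grp C K} (hg : g ∈ arith C K P) :
    ∃ γ ∈ cong C K P N, ∃ g0 ∈ arith C K 1, g = γ * g0 := by
  rw [arith_eq hC] at hg
  induction hg using Subgroup.closure_induction with
  | mem x hx =>
    obtain ⟨β, a, ha, rfl⟩ := hx
    obtain ⟨a0, ha0, b, hb, rfl⟩ := h3 a ha
    refine ⟨xg hC β (polyL K N * b), xg_cong hC β hb, xg hC β a0, xg_mem_arith hC 1 β ha0, ?_⟩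
    rw [← xg_add, add_comm]
  | one => exact ⟨1, one_mem _, 1, one_mem _, by rw [mul_one]⟩
  | mul x y hx hy h1 h2 =>
    obtain ⟨γ₁, h11, g₁, h12, rfl⟩ := h1
    obtain ⟨γ₂, h21, g₂, h22, rfl⟩ := h2
    refine ⟨γ₁ * (g₁ * γ₂ * g₁⁻¹), mul_mem h11 (conj_cong hC (arith_one_le P h12) h21),
      g₁ * g₂, mul_mem h12 h22, ?_⟩
    group
  | inv x hx h1 =>
    obtain ⟨γ₁, h11, g₁, h12, rfl⟩ := h1
    refine ⟨g₁⁻¹ * γ₁⁻¹ * (g₁⁻¹)⁻¹,
      conj_cong hC (arith_one_le P (inv_mem h12)) (inv_mem h11), g₁⁻¹, inv_mem h12, ?_⟩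
    group

end

/-- (NRM) -/
theorem nrm (hF : RootFinStmt) (h2 : Fld2Stmt) (h3 : Fld3Stmt) : NrmStmt := by
  intro r C hC K _ P N hP hN hPN
  have hfin : Finite (Rt C) := hF r C hC
  obtain ⟨hinj, -⟩ := h2 K
  obtain ⟨hA, hB, hD⟩ := h3 K P N hP
  have hP' : polyL K P ≠ 0 := by
    intro h
    apply hP
    apply hinj
    rw [h, map_zero]
  refine ⟨fun g hg γ hγ => conj_cong hC hg hγ, arith_one_le P, cong_one_le hP' hA, ?_,
    fun g hg => decomp hC (hD hPN) hg, fun g hg => (arith_int hC P hg).1⟩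
  rintro γ ⟨h4, h5, h6⟩ h7
  exact ⟨h7, triv_P_to_one hC (hB hPN) h5 h7, triv_P_to_one hC (hB hPN) h6 (inv_mem h7)⟩

end Pool.Agent.DEN.H63
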