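import Pool.Agent.Helper63_DEN.Nrm

/-!
# Squad DEN, module FIN: finiteness of the stabilizers and of the index
-/

set_option autoImplicit false

open scoped BigOperators

namespace Pool.Agent.DEN.H63

section
variable {r : ℕ} {C : Matrix (Fin r) (Fin r) ℤ} {K : Type} [Field K]

/-- integral elements of bounded degree form a finite set. -/
theorem finite_bounded [Finite K]
    (h3 : ∀ (p : Polynomial K) (m : ℤ), p ≠ 0 → polyL K p ∈ Bd K m → (p.natDegree : ℤ) ≤ m)
    (h5 : (ringA K 1 : Set (FF K)) = Set.range (polyL K)) (m : ℤ) :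
    {a : FF K | a ∈ ringA K 1 ∧ a ∈ Bd K m}.Finite := by
  have hsub : {a : FF K | a ∈ ringA K 1 ∧ a ∈ Bd K m} ⊆
      (polyL K) '' {p : Polynomial K | p.natDegree ≤ m.toNat} := by
    rintro a ⟨ha, hb⟩
    have ha' : a ∈ Set.range (polyL K) := by
      rw [← h5]
      exact ha
    obtain ⟨p, rfl⟩ := ha'
    refine ⟨p, ?_, rfl⟩
    by_cases hp : p = 0
    · rw [hp]
      simp
    · have := h3 p m hp hb
      change p.natDegree ≤ m.toNat
      omega
  refine Set.Finite.subset (Set.Finite.image _ ?_) hsub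
  have hinj : Set.InjOn (fun (p : Polynomial K) (i : Fin (m.toNat + 1)) => p.coeff i)
      {p : Polynomial K | p.natDegree ≤ m.toNat} := by
    intro p hp q hq hpq
    ext n
    by_cases hn : n < m.toNat + 1
    · exact congrFun hpq ⟨n, hn⟩
    · have hp' : p.natDegree ≤ m.toNat := hp
      have hq' : q.natDegree ≤ m.toNat := hq
      rw [Polynomial.coeff_eq_zero_of_natDegree_lt (by omega),
        Polynomial.coeff_eq_zero_of_natDegree_lt (by omega)]
  exact Set.Finite.of_finite_image (Set.toFinite _) hinj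

/-- vectors with coordinates in a finite set form a finite set. -/
theorem finite_Cd [Finite (Rt C)] {T : Set (FF K)} (hT : T.Finite) :
    {v : LieV C (FF K) | Cd T v}.Finite := by
  have h1 : {f : Fin r → FF K | ∀ i, f i ∈ T}.Finite := by
    have := Set.Finite.pi (fun _ : Fin r => hT)
    simpa [Set.pi] using this
  have h2 : {f : Rt C → FF K | ∀ i, f i ∈ T}.Finite := by
    have := Set.Finite.pi (fun _ : Rt C => hT)
    simpa [Set.pi] using this
  exact (h1.prod h2).subset fun v hv => ⟨hv.1, hv.2⟩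

/-- the basis vectors -/
noncomputable def bas (C : Matrix (Fin r) (Fin r) ℤ) (K : Type) [Field K] :
    Fin r ⊕ Rt C → LieV C (FF K) := by
  classical exact Sum.elim (fun i => (Pi.single i 1, 0)) (fun γ => (0, Pi.single γ 1))

theorem ext_bas [Finite (Rt C)] (g h : grp C K) (H : ∀ i, g.1 (bas C K i) = h.1 (bas C K i)) :
    g = h := by
  classical
  cases nonempty_fintype (Rt C)
  apply grp_ext
  intro v
  have e : v = ∑ i, v.1 i • bas C K (Sum.inl i) + ∑ γ, v.2 γ • bas C K (Sum.inr γ) := by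
    refine Prod.ext ?_ ?_
    · funext j
      simp only [bas, Sum.elim_inl, Sum.elim_inr, Prod.fst_add, Prod.fst_sum, Prod.smul_fst,
        Pi.add_apply, Finset.sum_apply, Pi.smul_apply, smul_eq_mul, Pi.zero_apply, mul_zero,
        Finset.sum_const_zero, add_zero, Pi.single_apply, mul_ite, mul_one]
      rw [Finset.sum_ite_eq]
      simp
    · funext j
      simp only [bas, Sum.elim_inl, Sum.elim_inr, Prod.snd_add, Prod.snd_sum, Prod.smul_snd,
        Pi.add_apply, Finset.sum_apply, Pi.smul_apply, smul_eq_mul, Pi.zero_apply, mul_zero,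
        Finset.sum_const_zero, zero_add, Pi.single_apply, mul_ite, mul_one]
      rw [Finset.sum_ite_eq]
      simp
  rw [e]
  simp only [map_add, map_sum, map_smul, H]

theorem bas_mem (S : Set (FF K)) (h0 : (0 : FF K) ∈ S) (h1 : (1 : FF K) ∈ S)
    (i : Fin r ⊕ Rt C) : Cd S (bas C K i) := by
  classical
  rcases i with i | γ
  · constructor
    · intro j
      simp only [bas, Sum.elim_inl, Pi.single_apply]
      split_ifs <;> assumption
    · intro j
      simpa only [bas, Sum.elim_inl, Pi.zero_apply] using h0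
  · constructor
    · intro j
      simpa only [bas, Sum.elim_inr, Pi.zero_apply] using h0
    · intro j
      simp only [bas, Sum.elim_inr, Pi.single_apply]
      split_ifs <;> assumption

/-- a set of arithmetic elements which are uniformly bounded is finite. -/
theorem finite_arith [Finite K] [Finite (Rt C)] (hC : SimplyLaced C)
    (h10 : (0 : FF K) ∈ Bd K 0) (h11 : (1 : FF K) ∈ Bd K 0)
    (h3 : ∀ (p : Polynomial K) (m : ℤ), p ≠ 0 → polyL K p ∈ Bd K m → (p.natDegree : ℤ) ≤ m)
    (h5 : (ringA K 1 : Set (FF K)) = Set.range (polyL K)) (m : ℤ) :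
    {g : grp C K | g ∈ arith C K 1 ∧ bnd m g}.Finite := by
  classical
  cases nonempty_fintype (Rt C)
  have hT := finite_bounded h3 h5 m
  have hZ : {w : Fin r ⊕ Rt C → LieV C (FF K) | ∀ i,
      w i ∈ {v : LieV C (FF K) | Cd {a : FF K | a ∈ ringA K 1 ∧ a ∈ Bd K m} v}}.Finite := by
    have := Set.Finite.pi (fun _ : Fin r ⊕ Rt C => finite_Cd (C := C) hT)
    simpa [Set.pi] using this
  have hmaps : Set.MapsTo (fun (g : grp C K) i => g.1 (bas C K i))
      {g : grp C K | g ∈ arith C K 1 ∧ bnd m g}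
      {w : Fin r ⊕ Rt C → LieV C (FF K) | ∀ i,
      w i ∈ {v : LieV C (FF K) | Cd {a : FF K | a ∈ ringA K 1 ∧ a ∈ Bd K m} v}} := by
    rintro g ⟨hg1, hg2⟩ i
    have e1 := (arith_int hC 1 hg1).1 _ (bas_mem (C := C) _ (zero_mem (ringA K 1))
      (one_mem (ringA K 1)) i)
    have e2 := hg2 _ (bas_mem (C := C) _ h10 h11 i)
    exact ⟨fun j => ⟨e1.1 j, e2.1 j⟩, fun j => ⟨e1.2 j, e2.2 j⟩⟩
  have hinj : Set.InjOn (fun (g : grp C K) i => g.1 (bas C K i))
      {g : grp C K | g ∈ arith C K 1 ∧ bnd m g} := by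
    intro g _ h _ hgh
    exact ext_bas g h fun i => congrFun hgh i
  exact Set.Finite.of_injOn hmaps hinj hZ

/-- congruent elements -/
theorem triv_of_bas [Finite (Rt C)] {N : Polynomial K} {g h : grp C K}
    (H : ∀ i, ∃ u : LieV C (FF K), Cd (ringA K 1 : Set (FF K)) u ∧
      g.1 (bas C K i) - h.1 (bas C K i) = polyL K N • u) (v : LieV C (FF K))
    (hv : Cd (ringA K 1 : Set (FF K)) v) :
    ∃ u : LieV C (FF K), Cd (ringA K 1 : Set (FF K)) u ∧ g.1 v - h.1 v = polyL K N • u := by
  classical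
  cases nonempty_fintype (Rt C)
  choose u hu hu' using H
  have e : v = ∑ i, v.1 i • bas C K (Sum.inl i) + ∑ γ, v.2 γ • bas C K (Sum.inr γ) := by
    refine Prod.ext ?_ ?_
    · funext j
      simp only [bas, Sum.elim_inl, Sum.elim_inr, Prod.fst_add, Prod.fst_sum, Prod.smul_fst,
        Pi.add_apply, Finset.sum_apply, Pi.smul_apply, smul_eq_mul, Pi.zero_apply, mul_zero,
        Finset.sum_const_zero, add_zero, Pi.single_apply, mul_ite, mul_one]
      rw [Finset.sum_ite_eq]
      simp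
    · funext j
      simp only [bas, Sum.elim_inl, Sum.elim_inr, Prod.snd_add, Prod.snd_sum, Prod.smul_snd,
        Pi.add_apply, Finset.sum_apply, Pi.smul_apply, smul_eq_mul, Pi.zero_apply, mul_zero,
        Finset.sum_const_zero, zero_add, Pi.single_apply, mul_ite, mul_one]
      rw [Finset.sum_ite_eq]
      simp
  refine ⟨∑ i, v.1 i • u (Sum.inl i) + ∑ γ, v.2 γ • u (Sum.inr γ), ?_, ?_⟩
  · constructor
    · intro j
      simp only [Prod.fst_add, Prod.fst_sum, Prod.smul_fst, Pi.add_apply, Finset.sum_apply,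
        Pi.smul_apply, smul_eq_mul]
      exact add_mem (sum_mem fun i _ => mul_mem (hv.1 i) ((hu _).1 j))
        (sum_mem fun i _ => mul_mem (hv.2 i) ((hu _).1 j))
    · intro j
      simp only [Prod.snd_add, Prod.snd_sum, Prod.smul_snd, Pi.add_apply, Finset.sum_apply,
        Pi.smul_apply, smul_eq_mul]
      exact add_mem (sum_mem fun i _ => mul_mem (hv.1 i) ((hu _).2 j))
        (sum_mem fun i _ => mul_mem (hv.2 i) ((hu _).2 j))
  · have e1 : g.1 v - h.1 v = ∑ i, v.1 i • (g.1 (bas C K (Sum.inl i)) - h.1 (bas C K (Sum.inl i)))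
        + ∑ γ, v.2 γ • (g.1 (bas C K (Sum.inr γ)) - h.1 (bas C K (Sum.inr γ))) := by
      conv_lhs => rw [e]
      simp only [map_add, map_sum, map_smul, smul_sub, Finset.sum_sub_distrib]
      abel
    rw [e1]
    simp only [hu', smul_add, Finset.smul_sum]
    congr 1
    · exact Finset.sum_congr rfl fun i _ => smul_comm _ _ _
    · exact Finset.sum_congr rfl fun i _ => smul_comm _ _ _

theorem cong_of_bas [Finite (Rt C)] (hC : SimplyLaced C) {N : Polynomial K} {g h : grp C K}
    (hg : g ∈ arith C K 1) (hh : h ∈ arith C K 1)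
    (H : ∀ i, ∃ u : LieV C (FF K), Cd (ringA K 1 : Set (FF K)) u ∧
      g.1 (bas C K i) - h.1 (bas C K i) = polyL K N • u) : g⁻¹ * h ∈ cong C K 1 N := by
  have key : ∀ a b : grp C K, a ∈ arith C K 1 → b ∈ arith C K 1 →
      (∀ v : LieV C (FF K), Cd (ringA K 1 : Set (FF K)) v →
        ∃ u : LieV C (FF K), Cd (ringA K 1 : Set (FF K)) u ∧ a.1 v - b.1 v = polyL K N • u) →
      TrivMod C K 1 N (b⁻¹ * a) := by
    intro a b ha hb hab v hv
    obtain ⟨u, hu, hu'⟩ := hab v hv
    have e : (b⁻¹ * a).1 v - v = polyL K N • (b⁻¹).1 u := by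
      have e1 : (b⁻¹ * a).1 v = (b⁻¹).1 (a.1 v) := rfl
      have e2 : (b⁻¹).1 (b.1 v) = v := by
        have : (b⁻¹ * b).1 v = v := by rw [inv_mul_cancel]; rfl
        exact this
      rw [e1, ← map_smul, ← hu', map_sub, e2]
    rw [e]
    exact Cd_N' ((arith_int hC 1 hb).2 u hu)
  have H1 := triv_of_bas H
  have H2 : ∀ v : LieV C (FF K), Cd (ringA K 1 : Set (FF K)) v →
      ∃ u : LieV C (FF K), Cd (ringA K 1 : Set (FF K)) u ∧ h.1 v - g.1 v = polyL K N • u := by
    intro v hv
    obtain ⟨u, hu, hu'⟩ := H1 v hv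
    refine ⟨-u, ⟨fun i => neg_mem (hu.1 i), fun i => neg_mem (hu.2 i)⟩, ?_⟩
    rw [smul_neg, ← hu']
    abel
  refine ⟨mul_mem (inv_mem hg) hh, key h g hh hg H2, ?_⟩
  have e : (g⁻¹ * h)⁻¹ = h⁻¹ * g := by group
  rw [e]
  exact key g h hg hh H1

end

/-- (FIN) -/
theorem fin (hF : RootFinStmt) (h1 : Fld1Stmt) (h2 : Fld2Stmt) (hB : BdgStmt) : FinStmt := by
  intro r C hC K _ _
  have hfin : Finite (Rt C) := hF r C hC
  obtain ⟨h10, -, -, -, h1m, h1z, -, -, -⟩ := h1 K
  have h11 : (1 : FF K) ∈ Bd K 0 := by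
    have := h1z 1
    rwa [Int.cast_one] at this
  obtain ⟨hinj, -, h23, h24, h25⟩ := h2 K
  obtain ⟨hb1, hb2, hb3⟩ := hB r C hC K
  have hstab : ∀ x : XX C K, {g : grp C K | g ∈ arith C K 1 ∧ g • x = x}.Finite := by
    intro x
    obtain ⟨g, rfl⟩ := QuotientGroup.mk_surjective x
    obtain ⟨m, hm1, hm2⟩ := hb1 g
    refine (finite_arith hC (h10 0) h11 h23 h25 (m + 0 + m)).subset ?_
    rintro γ ⟨hγ1, hγ2⟩
    refine ⟨hγ1, ?_⟩
    have h3 : g⁻¹ * (γ * g) ∈ maxK C K := by
      have h4 : (QuotientGroup.mk (γ * g) : XX C K) = QuotientGroup.mk g := hγ2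
      exact QuotientGroup.eq.1 h4.symm
    have h4 := (hb3 _).1 h3
    have h5 := hb2 _ _ _ _ (hb2 _ _ _ _ hm1 h4.1) hm2
    have e : g * (g⁻¹ * (γ * g)) * g⁻¹ = γ := by group
    rw [e] at h5
    exact h5
  refine ⟨?_, ?_, ?_⟩
  · intro x
    have h3 := (hstab x).to_subtype
    refine Finite.of_injective (β := {g : grp C K | g ∈ arith C K 1 ∧ g • x = x})
      (fun γ => ⟨γ.1.1, γ.1.2, γ.2⟩) ?_
    intro a b hab
    apply Subtype.ext
    apply Subtype.ext
    exact congrArg (fun z => z.1) hab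
  · intro N x
    have h3 := (hstab x).to_subtype
    refine Finite.of_injective (β := {g : grp C K | g ∈ arith C K 1 ∧ g • x = x})
      (fun γ => ⟨γ.1.1, γ.1.2.1, γ.2⟩) ?_
    intro a b hab
    apply Subtype.ext
    apply Subtype.ext
    exact congrArg (fun z => z.1) hab
  · intro N hN
    -- residues
    have hres : ∀ a : FF K, ∃ c : FF K, a ∈ ringA K 1 →
        (c ∈ ringA K 1 ∧ c ∈ Bd K (N.natDegree - 1)) ∧ ∃ b ∈ ringA K 1, a - c = polyL K N * b := by
      intro a
      obtain ⟨b, hb⟩ := h24 N hN a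
      refine ⟨a - polyL K N * polyL K b, fun ha => ⟨⟨?_, hb⟩, polyL K b, polyL_mem 1 b, ?_⟩⟩
      · exact sub_mem ha (mul_mem (polyL_mem 1 N) (polyL_mem 1 b))
      · ring
    choose ρ hρ using hres
    have hT := finite_bounded h23 h25 (N.natDegree - 1)
    have hZ : {w : Fin r ⊕ Rt C → LieV C (FF K) | ∀ i,
        w i ∈ {v : LieV C (FF K) |
          Cd {a : FF K | a ∈ ringA K 1 ∧ a ∈ Bd K (N.natDegree - 1)} v}}.Finite := by
      have := Set.Finite.pi (fun _ : Fin r ⊕ Rt C => finite_Cd (C := C) hT)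
      simpa [Set.pi] using this
    have hZ' := hZ.to_subtype
    let φ : (arith C K 1) ⧸ (cong C K 1 N).subgroupOf (arith C K 1) →
        {w : Fin r ⊕ Rt C → LieV C (FF K) | ∀ i,
        w i ∈ {v : LieV C (FF K) |
          Cd {a : FF K | a ∈ ringA K 1 ∧ a ∈ Bd K (N.natDegree - 1)} v}} :=
      fun q => ⟨fun i => (fun j => ρ ((q.out.1.1 (bas C K i)).1 j),
        fun j => ρ ((q.out.1.1 (bas C K i)).2 j)), by
        intro i
        have e1 := (arith_int hC 1 q.out.2).1 _ (bas_mem (C := C) _ (zero_mem (ringA K 1))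
          (one_mem (ringA K 1)) i)
        exact ⟨fun j => (hρ _ (e1.1 j)).1, fun j => (hρ _ (e1.2 j)).1⟩⟩
    have hφ : Function.Injective φ := by
      intro q q' hqq
      have h3 : ∀ i, (fun j => ρ ((q.out.1.1 (bas C K i)).1 j),
          fun j => ρ ((q.out.1.1 (bas C K i)).2 j)) =
          ((fun j => ρ ((q'.out.1.1 (bas C K i)).1 j),
          fun j => ρ ((q'.out.1.1 (bas C K i)).2 j)) : LieV C (FF K)) :=
        fun i => congrFun (congrArg Subtype.val hqq) i
      have key : ∀ a a' : FF K, a ∈ ringA K 1 → a' ∈ ringA K 1 → ρ a = ρ a' →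
          ∃ b ∈ ringA K 1, a - a' = polyL K N * b := by
        intro a a' ha ha' haa
        obtain ⟨-, b, hb, hb'⟩ := hρ a ha
        obtain ⟨-, b', hc, hc'⟩ := hρ a' ha'
        refine ⟨b - b', sub_mem hb hc, ?_⟩
        rw [mul_sub, ← hb', ← hc', haa]
        ring
      have h4 : q.out.1⁻¹ * q'.out.1 ∈ cong C K 1 N := by
        apply cong_of_bas hC q.out.2 q'.out.2
        intro i
        have e1 := (arith_int hC 1 q.out.2).1 _ (bas_mem (C := C) _ (zero_mem (ringA K 1))
          (one_mem (ringA K 1)) i)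
        have e2 := (arith_int hC 1 q'.out.2).1 _ (bas_mem (C := C) _ (zero_mem (ringA K 1))
          (one_mem (ringA K 1)) i)
        apply Cd_N
        exact ⟨fun j => key _ _ (e1.1 j) (e2.1 j) (congrFun (congrArg Prod.fst (h3 i)) j),
          fun j => key _ _ (e1.2 j) (e2.2 j) (congrFun (congrArg Prod.snd (h3 i)) j)⟩
      have h5 : (QuotientGroup.mk q.out : (arith C K 1) ⧸ (cong C K 1 N).subgroupOf (arith C K 1))
          = QuotientGroup.mk q'.out := by
        rw [QuotientGroup.eq]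
        exact h4
      rwa [QuotientGroup.out_eq', QuotientGroup.out_eq'] at h5
    have hfq : Finite ((arith C K 1) ⧸ (cong C K 1 N).subgroupOf (arith C K 1)) :=
      Finite.of_injective φ hφ
    exact Subgroup.index_ne_zero_of_finite

end Pool.Agent.DEN.H63
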